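import Pool.Agent.Helper40_Dio.FStmt

/-! # DIO, Part F, module BLO (helper13): `ν ≥ 2` gives `d ≥ 15 b² c³`. -/

set_option autoImplicit false

namespace Pool.Agent.DIO.H13

open Pool.Agent.DIO

/-- A lower bound for `u p + v q`. -/
lemma lin_lb {u v p q P Q : ℤ} (hu : 0 ≤ u) (hv : 0 ≤ v) (hp : P ≤ p) (hq : Q ≤ q) :
    u * P + v * Q ≤ u * p + v * q :=
  add_le_add (mul_le_mul_of_nonneg_left hp hu) (mul_le_mul_of_nonneg_left hq hv)

/-- From index `m` on, both components stay positive and the first one does not decrease. -/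
lemma sqg_mono (b c t z1 y1 : ℤ) (hb : 0 < b) (hc : 0 < c) (ht : 1 ≤ t) (m : ℕ)
    (B : ℤ) (hB : 0 < B) (h1 : B ≤ (sqg b c t z1 y1 m).1) (h2 : 0 < (sqg b c t z1 y1 m).2) :
    ∀ k : ℕ, B ≤ (sqg b c t z1 y1 (m + k)).1 ∧ 0 < (sqg b c t z1 y1 (m + k)).2 := by
  intro k
  induction k with
  | zero => exact ⟨h1, h2⟩
  | succ k ih =>
    obtain ⟨i1, i2⟩ := ih
    have e : sqg b c t z1 y1 (m + (k + 1)) =
        (t * (sqg b c t z1 y1 (m + k)).1 + c * (sqg b c t z1 y1 (m + k)).2,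
          t * (sqg b c t z1 y1 (m + k)).2 + b * (sqg b c t z1 y1 (m + k)).1) := rfl
    rw [e]
    generalize (sqg b c t z1 y1 (m + k)).1 = p at i1
    generalize (sqg b c t z1 y1 (m + k)).2 = q at i2
    have hp : 0 < p := lt_of_lt_of_le hB i1
    have ht0 : 0 < t := lt_of_lt_of_le one_pos ht
    constructor
    · show B ≤ t * p + c * q
      have h3 : 1 * p ≤ t * p := mul_le_mul_of_nonneg_right ht hp.le
      rw [one_mul] at h3
      have h4 := mul_pos hc i2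
      linarith
    · show 0 < t * q + b * p
      exact add_pos (mul_pos ht0 i2) (mul_pos hb hp)

lemma first1 (b c t W F f : ℤ) (hb : 0 < b) (hc : 0 < c) (hW0 : 0 ≤ W) (hF0 : 0 ≤ F)
    (ht : 1 ≤ t) (hW : W * W = c * f + 1) (hF : F * F = b * f + 1) (htz : t * t = b * c + 1)
    (hf : 4 * f < c) (hb4 : 4 * b < c) : t * W + 1 ≤ c * F := by
  have e : (c * F) ^ 2 - (t * W) ^ 2 = c * (c - b - f) - 1 := by
    have e0 : (c * F) ^ 2 - (t * W) ^ 2 = c ^ 2 * (F * F) - (t * t) * (W * W) := by ring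
    rw [e0, hF, htz, hW]; ring
  have h1 : 1 < c * (c - b - f) := by
    have h2 : 2 ≤ c - b - f := by omega
    have h3 : c * 2 ≤ c * (c - b - f) := mul_le_mul_of_nonneg_left h2 hc.le
    linarith
  have h2 : (t * W) ^ 2 < (c * F) ^ 2 := by linarith
  have h3 := lt_of_pow_lt_pow_left₀ 2 (mul_nonneg hc.le hF0) h2
  linarith

lemma first2 (b c t W F f : ℤ) (hb : 0 < b) (hc : 0 < c) (hf0 : 0 ≤ f) (hF0 : 0 ≤ F)
    (ht : 1 ≤ t) (hW : W * W = c * f + 1) (hF : F * F = b * f + 1) (htz : t * t = b * c + 1)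
    (hb4 : 4 * b < c) : b * W + 1 ≤ t * F := by
  have e : (t * F) ^ 2 - (b * W) ^ 2 = b * (c + f - b) + 1 := by
    have e0 : (t * F) ^ 2 - (b * W) ^ 2 = (t * t) * (F * F) - b ^ 2 * (W * W) := by ring
    rw [e0, hF, htz, hW]; ring
  have h1 : 0 < b * (c + f - b) := mul_pos hb (by linarith)
  have h2 : (b * W) ^ 2 < (t * F) ^ 2 := by linarith
  have h3 := lt_of_pow_lt_pow_left₀ 2 (mul_nonneg (by linarith) hF0) h2
  linarith

lemma fourth (b c t p1 q1 : ℤ) (hb : 0 < b) (hc : 0 < c) (ht : 1 ≤ t) (htz : t * t = b * c + 1)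
    (i1 : 1 ≤ p1) (i2 : 1 ≤ q1) :
    4 * b * c ^ 2 ≤ t * (t * (t * p1 + c * q1) + c * (t * q1 + b * p1)) +
        c * (t * (t * q1 + b * p1) + b * (t * p1 + c * q1)) ∧
      0 < t * (t * (t * q1 + b * p1) + b * (t * p1 + c * q1)) +
        b * (t * (t * p1 + c * q1) + c * (t * q1 + b * p1)) := by
  have ht0 : 0 ≤ t := by linarith
  have j1 : t * 1 + c * 1 ≤ t * p1 + c * q1 := lin_lb ht0 hc.le i1 i2
  have j2 : t * 1 + b * 1 ≤ t * q1 + b * p1 := lin_lb ht0 hb.le i2 i1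
  have l1 := lin_lb ht0 hc.le j1 j2
  have l2 := lin_lb ht0 hb.le j2 j1
  have m1 := lin_lb ht0 hc.le l1 l2
  have m2 := lin_lb ht0 hb.le l2 l1
  have hbc : 0 < b * c := mul_pos hb hc
  constructor
  · refine le_trans ?_ m1
    have e : t * (t * (t * 1 + c * 1) + c * (t * 1 + b * 1)) +
        c * (t * (t * 1 + b * 1) + b * (t * 1 + c * 1)) =
        t * (t * t) + 3 * c * (t * t) + 3 * (t * (b * c)) + b * c ^ 2 := by ring
    rw [e, htz]
    have e2 : t * (b * c + 1) + 3 * c * (b * c + 1) + 3 * (t * (b * c)) + b * c ^ 2 =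
      4 * b * c ^ 2 + (t * (b * c + 1) + 3 * c + 3 * (t * (b * c))) := by ring
    rw [e2]
    have h1 : 0 ≤ t * (b * c + 1) := mul_nonneg ht0 (by linarith)
    have h2 : 0 ≤ t * (b * c) := mul_nonneg ht0 hbc.le
    linarith
  · refine lt_of_lt_of_le ?_ m2
    have a1 : 0 < t * 1 + c * 1 := by linarith
    have a2 : 0 < t * 1 + b * 1 := by linarith
    have t0 : 0 < t := by linarith
    have a3 := add_pos (mul_pos t0 a1) (mul_pos hc a2)
    have a4 := add_pos (mul_pos t0 a2) (mul_pos hb a1)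
    exact add_pos (mul_pos t0 a4) (mul_pos hb a3)

lemma final (b c d z : ℤ) (hb : 0 < b) (hc : 0 < c) (hz : 4 * b * c ^ 2 ≤ z)
    (hz2 : z * z = c * d + 1) : 15 * b ^ 2 * c ^ 3 ≤ d := by
  have hc2 : 0 < c ^ 2 := pow_pos hc 2
  have h0 : 0 ≤ 4 * b * c ^ 2 := (mul_pos (mul_pos four_pos hb) hc2).le
  have h5 : (4 * b * c ^ 2) * (4 * b * c ^ 2) ≤ z * z := mul_le_mul hz hz h0 (le_trans h0 hz)
  rw [hz2] at h5
  have h6 : c * (15 * b ^ 2 * c ^ 3) ≤ c * d := by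
    have h7 : 0 < b ^ 2 * c ^ 4 := mul_pos (pow_pos hb 2) (pow_pos hc 4)
    have e1 : (4 * b * c ^ 2) * (4 * b * c ^ 2) = 16 * (b ^ 2 * c ^ 4) := by ring
    have e2 : c * (15 * b ^ 2 * c ^ 3) = 15 * (b ^ 2 * c ^ 4) := by ring
    rw [e1] at h5
    rw [e2]
    linarith
  exact le_of_mul_le_mul_left h6 hc

theorem blo : BloStatement := by
  intro a b c d r s t g u v w x y z f W F1 F2 ε μ ν hC hN hT hν
  obtain ⟨hε, hW, hF1, hF2, hf, hμ1, hν1, e1, e2⟩ := hT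
  have ha := hN.ha
  have hb := hN.hb
  have hg := hN.hg
  have hcgt := hN.c_gt
  have ht2 := hC.ht
  have hz2 := hC.z2
  have hbc4 : 4 * b < c := by
    have h1 : 4 * b ≤ 4 * (a * b * g) := by
      have : b ≤ a * b * g := by
        calc b = 1 * b * 1 := by rw [one_mul, mul_one]
          _ ≤ a * b * g := Nat.mul_le_mul (Nat.mul_le_mul ha le_rfl) hg
      exact Nat.mul_le_mul le_rfl this
    exact lt_of_le_of_lt h1 hcgt
  clear hC hN e1 hF1 hcgt hμ1 hν1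
  have ht0 : 0 < t := by
    rcases Nat.eq_zero_or_pos t with h | h
    · exfalso
      rw [h, zero_mul] at ht2
      exact Nat.succ_ne_zero _ ht2.symm
    · exact h
  have hbz : (0 : ℤ) < b := by exact_mod_cast hb
  have hc0 : 0 < c := lt_of_le_of_lt (Nat.zero_le _) hbc4
  have hcz : (0 : ℤ) < c := by exact_mod_cast hc0
  have hWz : (W : ℤ) * W = c * f + 1 := by exact_mod_cast hW
  have hFz : (F2 : ℤ) * F2 = b * f + 1 := by exact_mod_cast hF2
  have htz : (t : ℤ) * t = b * c + 1 := by exact_mod_cast ht2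
  have hfz : 4 * (f : ℤ) < c := by exact_mod_cast hf
  have hb4z : 4 * (b : ℤ) < c := by exact_mod_cast hbc4
  have htz1 : (1 : ℤ) ≤ t := by exact_mod_cast ht0
  have hF0 : (0 : ℤ) ≤ F2 := Int.natCast_nonneg _
  have hW0 : (0 : ℤ) ≤ W := Int.natCast_nonneg _
  have hf0 : (0 : ℤ) ≤ f := Int.natCast_nonneg _
  have k1 := first1 b c t W F2 f hbz hcz hW0 hF0 htz1 hWz hFz htz hfz hb4z
  have k2 := first2 b c t W F2 f hbz hcz hf0 hF0 htz1 hWz hFz htz hb4z
  have p1 : 0 ≤ (t : ℤ) * W := mul_nonneg (by linarith) hW0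
  have p2 : 0 ≤ (b : ℤ) * W := mul_nonneg hbz.le hW0
  have w1 : 1 ≤ (t : ℤ) * (ε * W) + c * F2 ∧ 1 ≤ (t : ℤ) * F2 + b * (ε * W) := by
    rcases hε with h | h
    · rw [h, one_mul]
      constructor <;> linarith
    · rw [h, neg_one_mul, mul_neg, mul_neg]
      constructor <;> linarith
  have F4 := fourth b c t _ _ hbz hcz htz1 htz w1.1 w1.2
  have hB : (0 : ℤ) < 4 * b * c ^ 2 := mul_pos (mul_pos four_pos hbz) (pow_pos hcz 2)
  have fin := sqg_mono b c t (ε * W) F2 hbz hcz htz1 4 (4 * b * c ^ 2) hB F4.1 F4.2 (2 * ν - 4)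
  rw [show 4 + (2 * ν - 4) = 2 * ν by omega, e2] at fin
  have h7 := final b c d z hbz hcz fin.1 hz2
  exact_mod_cast h7

end Pool.Agent.DIO.H13
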